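import Pool.Agent.Lib.MP_42f8a6_lc.Main

set_option autoImplicit false

namespace Pool.Agent.Results.MP_42f8a6_lc.FixedDim

open Pool.Agent.Lib.MP_42f8a6_lc N793a5b8e

/-- In every fixed dimension the art gallery problem for semialgebraic galleries reduces in
polynomial time to the existential theory of the reals. -/
theorem result : ∀ d : ℕ, ManyOneReducible (gallery d) etr := gallery_le_etr

end Pool.Agent.Results.MP_42f8a6_lc.FixedDim
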